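import Pool.Agent.R460.SC.So
import Pool.Agent.Y614.GJ.Core

set_option autoImplicit false

/-! The tail of the product for almost all constant terms in a residue class. -/

namespace Pool.Agent.R460.SC
open Finset Filter Topology
open Pool.Agent.W468.ConjF (SJ)
open Pool.Agent.Y868.TB (Sol low_count_lin)

theorem tail_class (a : ℤ) (ha : 0 < a) (b : ℤ) (ρ : ℝ) (hρ : 0 < ρ) (U E : ℕ) :
    ∃ X₀ : ℕ, ∀ X : ℕ, X₀ ≤ X → ∀ z : ℕ, Real.log X ^ (3 * (U + 1) + 4) ≤ z → (z : ℝ) ≤ Real.log X ^ E →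
    ∀ q : ℕ, 1 ≤ q → (q : ℝ) ≤ (X : ℝ) ^ (1 / 2 - ρ) → ∀ c₀ : ℤ,
      ∃ Ex : Finset ℤ, (#Ex : ℝ) ≤ X / (q * Real.log X ^ U) ∧
        ∀ c : ℤ, 1 ≤ c → c ≤ X → c ≡ c₀ [ZMOD q] → c ∉ Ex → ¬ IsSquare (b ^ 2 - 4 * a * c) ∧
          ∀ᶠ N in atTop, |SJ (b ^ 2 - 4 * a * c) z N| ≤ 1 / Real.log X ^ U := by
  classical
  obtain ⟨κ, hκ⟩ : ∃ κ : ℕ, κ = ⌈1 / ρ⌉₊ + 2 := ⟨_, rfl⟩
  have hκρ : 1 / ρ + 2 ≤ κ := by
    rw [hκ]
    push_cast
    linarith [Nat.le_ceil (1 / ρ)]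
  obtain ⟨H₀, h0⟩ := tail_gen2 (U + 1) (E + 1) 3 κ (by norm_num) (by omega)
  obtain ⟨K, hK⟩ : ∃ K : ℕ, K = (b ^ 2 + 8 * a).toNat := ⟨_, rfl⟩
  have hKz : (K : ℤ) = b ^ 2 + 8 * a := by
    rw [hK]
    exact Int.toNat_of_nonneg (by positivity)
  have hK1 : 1 ≤ K := by
    have : 0 ≤ b ^ 2 := sq_nonneg b
    omega
  obtain ⟨X₁, h1⟩ := Filter.eventually_atTop.1 (Pool.Agent.Y614.GJ.Core.ev_log 1 (s := min (ρ / 2) (1 / 2)) (by positivity)
    (2 * (H₀ : ℝ) + 4 * K + 2 ^ (3 * (U + 1) + 3) + 2 ^ (E + 1) + 2 ^ (U + 3) + 100))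
  refine ⟨X₁ + 3, fun X hX z hz1 hz2 q hq1 hqX c₀ => ?_⟩
  obtain ⟨hLb, hLp⟩ := h1 X (by omega)
  have hX1 : 1 ≤ X := by omega
  have hX0 : (0 : ℝ) < X := by exact_mod_cast hX1
  have hX1r : (1 : ℝ) ≤ X := by exact_mod_cast hX1
  rw [pow_one] at hLp
  obtain ⟨L, hL⟩ : ∃ L, L = Real.log (X : ℝ) := ⟨_, rfl⟩
  rw [← hL] at hLb hLp hz1 hz2 ⊢
  have p1 : (0 : ℝ) < 2 ^ (3 * (U + 1) + 3) := by positivity
  have p2 : (0 : ℝ) < 2 ^ (E + 1) := by positivity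
  have p3 : (0 : ℝ) < 2 ^ (U + 3) := by positivity
  have p4 : (0 : ℝ) ≤ H₀ := Nat.cast_nonneg _
  have p5 : (1 : ℝ) ≤ K := by exact_mod_cast hK1
  have hL100 : 100 ≤ L := by linarith
  have hL0 : 0 < L := by linarith
  have hL1 : 1 ≤ L := by linarith
  have hq0 : (0 : ℝ) < q := by exact_mod_cast hq1
  have hq1r : (1 : ℝ) ≤ q := by exact_mod_cast hq1
  have hρX : L ≤ (X : ℝ) ^ (ρ / 2) := hLp.trans (Real.rpow_le_rpow_of_exponent_le hX1r (min_le_left _ _))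
  have hhX : L ≤ (X : ℝ) ^ (1 / 2 : ℝ) := hLp.trans (Real.rpow_le_rpow_of_exponent_le hX1r (min_le_right _ _))
  have hhX0 : 0 < (X : ℝ) ^ (1 / 2 : ℝ) := Real.rpow_pos_of_pos hX0 _
  have hsq : (X : ℝ) ^ (1 / 2 : ℝ) * (X : ℝ) ^ (1 / 2 : ℝ) = X := by
    rw [← Real.rpow_add hX0]
    norm_num
  -- the number of members
  obtain ⟨H, hH⟩ : ∃ H, H = X / q + 1 := ⟨_, rfl⟩
  have hqh : (q : ℝ) ≤ (X : ℝ) ^ (1 / 2 : ℝ) := hqX.trans
    (Real.rpow_le_rpow_of_exponent_le hX1r (by linarith))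
  have hqXr : (q : ℝ) ≤ X := by
    calc (q : ℝ) ≤ (X : ℝ) ^ (1 / 2 : ℝ) := hqh
      _ ≤ (X : ℝ) ^ (1 : ℝ) := Real.rpow_le_rpow_of_exponent_le hX1r (by norm_num)
      _ = X := Real.rpow_one _
  have hHlo : (X : ℝ) / q ≤ H := by
    rw [hH, div_le_iff₀ hq0]
    have h5 : X < (X / q + 1) * q := by
      have := Nat.lt_div_mul_add (a := X) (b := q) (by omega)
      rw [add_mul, one_mul]
      exact this
    exact_mod_cast h5.le
  have hHhi : (H : ℝ) ≤ 2 * (X / q) := by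
    rw [hH]
    push_cast
    have h5 : ((X / q : ℕ) : ℝ) ≤ X / q := Nat.cast_div_le
    have h6 : 1 ≤ (X : ℝ) / q := by rw [one_le_div hq0]; exact hqXr
    linarith
  have hHρ : (X : ℝ) ^ (1 / 2 + ρ) ≤ H := by
    refine le_trans ?_ hHlo
    rw [le_div_iff₀ hq0]
    calc (X : ℝ) ^ (1 / 2 + ρ) * q ≤ (X : ℝ) ^ (1 / 2 + ρ) * (X : ℝ) ^ (1 / 2 - ρ) := by gcongr
      _ = X := by
          rw [← Real.rpow_add hX0]
          norm_num
  have hHh : (X : ℝ) ^ (1 / 2 : ℝ) ≤ H :=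
    (Real.rpow_le_rpow_of_exponent_le hX1r (by linarith)).trans hHρ
  have hH0 : (0 : ℝ) < H := lt_of_lt_of_le hhX0 hHh
  have hHn : 1 ≤ H := by rw [hH]; exact Nat.le_add_left 1 _
  have hlogH1 : L / 2 ≤ Real.log H := by
    have h5 := Real.log_le_log hhX0 hHh
    rw [Real.log_rpow hX0, ← hL] at h5
    linarith
  have hlogH2 : Real.log H ≤ 2 * L := by
    have h5 : (H : ℝ) ≤ X * X := by
      refine hHhi.trans ?_
      have h6 : (X : ℝ) / q ≤ X := div_le_self hX0.le hq1r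
      have h7 : (3 : ℝ) ≤ X := by exact_mod_cast (by omega : 3 ≤ X)
      nlinarith
    have h6 := Real.log_le_log hH0 h5
    rw [Real.log_mul hX0.ne' hX0.ne', ← hL] at h6
    linarith
  have hlogH0 : 0 < Real.log H := by linarith
  have hHX : L ≤ H := hhX.trans hHh
  -- the sequence
  obtain ⟨c₁, hc₁⟩ : ∃ c₁, c₁ = c₀ % (q : ℤ) := ⟨_, rfl⟩
  have hqz : (0 : ℤ) < q := by exact_mod_cast hq1
  have hc₁0 : 0 ≤ c₁ := by rw [hc₁]; exact Int.emod_nonneg _ hqz.ne'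
  have hc₁q : c₁ < q := by rw [hc₁]; exact Int.emod_lt_of_pos _ hqz
  obtain ⟨α, hα⟩ : ∃ α, α = b ^ 2 - 4 * a * (c₁ - q) := ⟨_, rfl⟩
  obtain ⟨β, hβ⟩ : ∃ β, β = -(4 * a * (q : ℤ)) := ⟨_, rfl⟩
  have hβ0 : β ≠ 0 := by
    rw [hβ]
    have : 0 < 4 * a * (q : ℤ) := by positivity
    omega
  have hval : ∀ k : ℕ, α + β * (k : ℤ) = b ^ 2 - 4 * a * (c₁ - q + q * k) := by
    intro k
    rw [hα, hβ]
    ring
  have hbd : ∀ k ∈ Icc 1 H, (α + β * (k : ℤ)).natAbs ≤ K * X := by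
    intro k hk
    rw [mem_Icc] at hk
    rw [hval]
    have h5 : (q : ℤ) * k ≤ X + q := by
      have h6 : q * k ≤ q * (X / q + 1) := Nat.mul_le_mul_left _ (by rw [← hH]; exact hk.2)
      have h7 : q * (X / q + 1) ≤ X + q := by
        rw [mul_add, mul_one]
        exact Nat.add_le_add_right (Nat.mul_div_le _ _) _
      exact_mod_cast h6.trans h7
    have h6 : (q : ℤ) ≤ q * k := by
      have : (1 : ℤ) ≤ k := by exact_mod_cast hk.1
      nlinarith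
    have h8 : (q : ℤ) ≤ X := by exact_mod_cast hqXr
    have h9 : (1 : ℤ) ≤ X := by exact_mod_cast hX1
    have h10 : 0 ≤ c₁ - q + q * (k : ℤ) := by omega
    have h11 : c₁ - q + q * (k : ℤ) ≤ 2 * X := by omega
    have h12 : |b ^ 2 - 4 * a * (c₁ - q + q * (k : ℤ))| ≤ (K : ℤ) * X := by
      rw [hKz, abs_le]
      have h13 : 0 ≤ b ^ 2 := sq_nonneg b
      obtain ⟨v, hv⟩ : ∃ v, v = c₁ - q + q * (k : ℤ) := ⟨_, rfl⟩
      rw [← hv] at h10 h11 ⊢
      have h14 : a * v ≤ a * (2 * X) := mul_le_mul_of_nonneg_left h11 ha.le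
      have h15 : 0 ≤ a * v := mul_nonneg ha.le h10
      have h16 : b ^ 2 * 1 ≤ b ^ 2 * X := mul_le_mul_of_nonneg_left h9 h13
      have h17 : 0 ≤ a * (X : ℤ) := mul_nonneg ha.le (by omega)
      constructor <;> nlinarith
    have h13 : ((b ^ 2 - 4 * a * (c₁ - q + q * (k : ℤ))).natAbs : ℤ) ≤ ((K * X : ℕ) : ℤ) := by
      rw [Int.natCast_natAbs]
      push_cast
      exact h12
    exact_mod_cast h13
  have hX32 : (K * X : ℕ) ≤ H ^ 3 := by
    have h5 : ((K * X : ℕ) : ℝ) ≤ (H : ℝ) ^ 3 := by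
      push_cast
      have hKh : (K : ℝ) ≤ (X : ℝ) ^ (1 / 2 : ℝ) := by linarith
      calc (K : ℝ) * X ≤ (X : ℝ) ^ (1 / 2 : ℝ) * ((X : ℝ) ^ (1 / 2 : ℝ) * (X : ℝ) ^ (1 / 2 : ℝ)) := by
            rw [hsq]
            gcongr
        _ ≤ (H : ℝ) * (H * H) := by gcongr
        _ = (H : ℝ) ^ 3 := by ring
    exact_mod_cast h5
  have hβb : β.natAbs ≤ H ^ 3 := by
    refine le_trans ?_ hX32
    have h5 : (β.natAbs : ℤ) ≤ ((K * X : ℕ) : ℤ) := by
      rw [Int.natCast_natAbs, hβ, abs_neg, abs_of_nonneg (by positivity)]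
      push_cast
      rw [hKz]
      have h8 : (q : ℤ) ≤ X := by exact_mod_cast hqXr
      have h9 : 0 ≤ b ^ 2 * (X : ℤ) := by positivity
      nlinarith
    exact_mod_cast h5
  -- the number of the members `d s²`
  obtain ⟨W, hW⟩ : ∃ W : ℝ, W = ((Nat.sqrt (K * X) + 1 : ℕ) : ℝ) := ⟨_, rfl⟩
  have hW0 : 0 ≤ W := by rw [hW]; positivity
  have hWX : W ≤ (X : ℝ) ^ (1 / 2 + ρ / 2) := by
    have h5 : ((Nat.sqrt (K * X) : ℕ) : ℝ) ≤ K * (X : ℝ) ^ (1 / 2 : ℝ) := by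
      have h6 : (Nat.sqrt (K * X)) ^ 2 ≤ K * X := Nat.sqrt_le' _
      have h7 : (((Nat.sqrt (K * X)) : ℕ) : ℝ) ^ 2 ≤ K * X := by exact_mod_cast h6
      have h8 : (K : ℝ) * X ≤ (K * (X : ℝ) ^ (1 / 2 : ℝ)) ^ 2 := by
        rw [mul_pow, sq ((X : ℝ) ^ (1 / 2 : ℝ)), hsq]
        apply mul_le_mul_of_nonneg_right _ hX0.le
        nlinarith
      exact le_of_pow_le_pow_left₀ (by norm_num) (by positivity) (h7.trans h8)
    have h9 : (1 : ℝ) ≤ (X : ℝ) ^ (1 / 2 : ℝ) := by linarith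
    rw [hW]
    push_cast
    calc ((Nat.sqrt (K * X) : ℕ) : ℝ) + 1 ≤ K * (X : ℝ) ^ (1 / 2 : ℝ) + K * (X : ℝ) ^ (1 / 2 : ℝ) := by
          apply add_le_add h5
          exact one_le_mul_of_one_le_of_one_le p5 h9
      _ = (2 * K) * (X : ℝ) ^ (1 / 2 : ℝ) := by ring
      _ ≤ (X : ℝ) ^ (ρ / 2) * (X : ℝ) ^ (1 / 2 : ℝ) := by
          apply mul_le_mul_of_nonneg_right _ hhX0.le
          linarith
      _ = (X : ℝ) ^ (1 / 2 + ρ / 2) := by
          rw [← Real.rpow_add hX0]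
          congr 1
          ring
  have hWκ : W ^ κ ≤ (H : ℝ) ^ (κ - 1) := by
    calc W ^ κ ≤ ((X : ℝ) ^ (1 / 2 + ρ / 2)) ^ κ := pow_le_pow_left₀ hW0 hWX _
      _ = (X : ℝ) ^ ((1 / 2 + ρ / 2) * κ) := by
          rw [← Real.rpow_natCast, ← Real.rpow_mul hX0.le]
      _ ≤ (X : ℝ) ^ ((1 / 2 + ρ) * ((κ - 1 : ℕ) : ℝ)) := by
          apply Real.rpow_le_rpow_of_exponent_le hX1r
          rw [Nat.cast_sub (by omega)]
          push_cast
          have h5 : 1 + 2 * ρ ≤ κ * ρ := by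
            have h6 := mul_le_mul_of_nonneg_right hκρ hρ.le
            have h7 : (1 / ρ + 2) * ρ = 1 + 2 * ρ := by field_simp
            linarith
          nlinarith
      _ = ((X : ℝ) ^ (1 / 2 + ρ)) ^ (κ - 1) := by
          rw [← Real.rpow_natCast, ← Real.rpow_mul hX0.le]
      _ ≤ (H : ℝ) ^ (κ - 1) := pow_le_pow_left₀ (Real.rpow_nonneg hX0.le _) hHρ _
  have hz1n : (1 : ℝ) ≤ z := (one_le_pow₀ hL1).trans hz1
  have hz1' : 1 ≤ z := by exact_mod_cast hz1n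
  obtain ⟨Ex, hEx1, hEx2⟩ := h0 H (by
      have h5 : (H₀ : ℝ) ≤ H := by linarith
      exact_mod_cast h5) z (by
      calc Real.log H ^ (3 * (U + 1) + 3) ≤ (2 * L) ^ (3 * (U + 1) + 3) := pow_le_pow_left₀ hlogH0.le hlogH2 _
        _ = 2 ^ (3 * (U + 1) + 3) * L ^ (3 * (U + 1) + 3) := mul_pow _ _ _
        _ ≤ L * L ^ (3 * (U + 1) + 3) := mul_le_mul_of_nonneg_right (by linarith) (by positivity)
        _ = L ^ (3 * (U + 1) + 4) := by ring
        _ ≤ z := hz1) (by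
      calc (z : ℝ) ≤ L ^ E := hz2
        _ ≤ (2 * Real.log H) ^ E := pow_le_pow_left₀ hL0.le (by linarith) _
        _ = 2 ^ E * Real.log H ^ E := mul_pow _ _ _
        _ ≤ Real.log H * Real.log H ^ E := by
            apply mul_le_mul_of_nonneg_right _ (by positivity)
            have : (2 : ℝ) ^ (E + 1) = 2 * 2 ^ E := by ring
            have : (0 : ℝ) < 2 ^ E := by positivity
            linarith
        _ = Real.log H ^ (E + 1) := by ring)
    (fun k : ℕ => α + β * (k : ℤ)) β hβ0 hβb (fun k hk => (hbd k hk).trans hX32)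
    (fun P Z hP τ hτ => by
      have h5 := low_count_lin α β P z Z (H + 1) hz1' hP τ hτ
      exact h5)
    W hW0 (fun d => by
      rw [hW]
      exact_mod_cast sol_lin α β hβ0 H (K * X) hbd d) hWκ
  refine ⟨Ex.image (fun k : ℕ => c₁ - q + q * (k : ℤ)), ?_, ?_⟩
  · have h5 : (#(Ex.image (fun k : ℕ => c₁ - q + q * (k : ℤ))) : ℝ) ≤ #Ex := by exact_mod_cast card_image_le
    refine h5.trans (hEx1.trans ?_)
    rw [div_le_div_iff₀ (by positivity) (by positivity)]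
    have h6 : L ^ (U + 1) ≤ 2 ^ (U + 1) * Real.log H ^ (U + 1) := by
      calc L ^ (U + 1) ≤ (2 * Real.log H) ^ (U + 1) := pow_le_pow_left₀ hL0.le (by linarith) _
        _ = _ := mul_pow _ _ _
    have h7 : (q : ℝ) * H ≤ 2 * X := by
      have := mul_le_mul_of_nonneg_left hHhi hq0.le
      have e : (q : ℝ) * (2 * (X / q)) = 2 * X := by field_simp
      rw [e] at this
      exact this
    have h8 : (0 : ℝ) ≤ L ^ U := by positivity
    have h9 : 2 ^ (U + 2) * L ^ U ≤ L ^ (U + 1) := by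
      rw [pow_succ L U, mul_comm]
      apply mul_le_mul_of_nonneg_left _ h8
      have : (2 : ℝ) ^ (U + 3) = 2 * 2 ^ (U + 2) := by ring
      have : (0 : ℝ) < 2 ^ (U + 2) := by positivity
      linarith
    have h10 : 2 * L ^ U ≤ Real.log H ^ (U + 1) := by
      have h11 : 2 ^ (U + 1) * (2 * L ^ U) ≤ 2 ^ (U + 1) * Real.log H ^ (U + 1) := by
        calc 2 ^ (U + 1) * (2 * L ^ U) = 2 ^ (U + 2) * L ^ U := by ring
          _ ≤ L ^ (U + 1) := h9
          _ ≤ _ := h6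
      exact le_of_mul_le_mul_left h11 (by positivity)
    calc (H : ℝ) * (q * L ^ U) = (q * H) * L ^ U := by ring
      _ ≤ (2 * X) * L ^ U := mul_le_mul_of_nonneg_right h7 h8
      _ = X * (2 * L ^ U) := by ring
      _ ≤ X * Real.log H ^ (U + 1) := mul_le_mul_of_nonneg_left h10 hX0.le
  · intro c hc1 hcX hcc hcE
    have h5 : (q : ℤ) ∣ c - c₁ := by
      have h6 : c₁ ≡ c₀ [ZMOD q] := by
        rw [hc₁]
        exact Int.mod_modEq _ _
      exact (h6.trans hcc.symm).dvd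
    obtain ⟨t, ht⟩ := h5
    have ht0 : 0 ≤ t := by
      by_contra hcon
      push Not at hcon
      have : (q : ℤ) * t ≤ q * (-1) := mul_le_mul_of_nonneg_left (by omega) hqz.le
      omega
    have htX : t ≤ X / q := by
      rw [Int.le_ediv_iff_mul_le hqz]
      have : t * (q : ℤ) = c - c₁ := by rw [ht]; ring
      omega
    obtain ⟨k, hk⟩ : ∃ k : ℕ, k = t.toNat + 1 := ⟨_, rfl⟩
    have hkt : (k : ℤ) = t + 1 := by
      rw [hk]
      push_cast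
      rw [Int.toNat_of_nonneg ht0]
    have hkc : c₁ - q + q * (k : ℤ) = c := by
      rw [hkt]
      have : c = c₁ + q * t := by omega
      rw [this]
      ring
    have hkH : k ∈ Icc 1 H := by
      rw [mem_Icc]
      refine ⟨by omega, ?_⟩
      have h6 : (k : ℤ) ≤ (H : ℤ) := by
        rw [hkt, hH]
        push_cast
        omega
      exact_mod_cast h6
    have hkE : k ∉ Ex := by
      intro h
      apply hcE
      rw [mem_image]
      exact ⟨k, h, hkc⟩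
    obtain ⟨g1, g2⟩ := hEx2 k hkH hkE
    have e : α + β * (k : ℤ) = b ^ 2 - 4 * a * c := by rw [hval, hkc]
    simp only [e] at g1 g2
    refine ⟨g1, ?_⟩
    filter_upwards [g2] with N hN
    refine hN.trans ?_
    apply one_div_le_one_div_of_le (by positivity)
    calc L ^ U ≤ (2 * Real.log H) ^ U := pow_le_pow_left₀ hL0.le (by linarith) _
      _ = 2 ^ U * Real.log H ^ U := mul_pow _ _ _
      _ ≤ Real.log H * Real.log H ^ U := by
          apply mul_le_mul_of_nonneg_right _ (by positivity)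
          have e1 : (2 : ℝ) ^ (U + 3) = 8 * 2 ^ U := by ring
          have : (0 : ℝ) < 2 ^ U := by positivity
          linarith
      _ = Real.log H ^ (U + 1) := by ring

end Pool.Agent.R460.SC
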