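import Pool.Agent.R460.SC.Tl
import Pool.Agent.R460.SB.UnW
import Pool.Agent.R460.SB.Leg

set_option autoImplicit false

/-! The formula with the full Euler product, for almost all constant terms in a residue class. -/

namespace Pool.Agent.R460.SC
open Finset Filter Topology
open Pool.Agent.W468.ConjF (SJ PJ PJ_le PJ_tendsto)
open Pool.Agent.H373R2.T7 (Vz pz Vz_pos Vz_inv_small nuB mem_pz)
open Pool.Agent.R460.SB (Sz Sz_prod Sz_bd nu_leg fv GoodU fin_unw QS wl wl_bd fv_two)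
open Pool.Agent.Y614.GJ.Core (ev_log)

/-- the Euler product beyond `z` -/
lemma Sz_split {a b c : ℤ} (ha : 0 < a) {z N : ℕ} (hz : 2 ≤ z) (haz : a ≤ z) (hN : z ≤ N) :
    Sz (-a) (-b) c N = Sz (-a) (-b) c z * PJ (b ^ 2 - 4 * a * c) z N := by
  rw [Sz_prod, Sz_prod]
  have e1 : pz N = pz z ∪ (Ioc z N).filter Nat.Prime := by
    ext p
    rw [mem_union, mem_pz, mem_pz, mem_filter, mem_Ioc]
    constructor
    · rintro ⟨h1, h2⟩
      by_cases h3 : p ≤ z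
      · exact Or.inl ⟨h3, h2⟩
      · exact Or.inr ⟨⟨by omega, h1⟩, h2⟩
    · rintro (⟨h1, h2⟩ | ⟨⟨h1, h2⟩, h3⟩)
      · exact ⟨by omega, h2⟩
      · exact ⟨h2, h3⟩
  have hdis : Disjoint (pz z) ((Ioc z N).filter Nat.Prime) := by
    rw [disjoint_left]
    intro p hp hp'
    rw [mem_pz] at hp
    rw [mem_filter, mem_Ioc] at hp'
    omega
  rw [e1, prod_union hdis]
  congr 1
  unfold PJ
  apply prod_congr rfl
  intro p hp
  rw [mem_filter, mem_Ioc] at hp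
  have hp3 : (3 : ℝ) ≤ p := by exact_mod_cast (by omega : 3 ≤ p)
  have hpa : ¬ (p : ℤ) ∣ -a := by
    intro h
    rw [dvd_neg] at h
    have := Int.le_of_dvd ha h
    omega
  have h1 := nu_leg (-a) (-b) c hp.2 (by omega) hpa
  have h2 : 4 * (-a) * c + (-b) ^ 2 = b ^ 2 - 4 * a * c := by ring
  rw [h2] at h1
  have h3 : (nuB (QS (-a) (-b) c) p : ℝ) = 1 + (jacobiSym (b ^ 2 - 4 * a * c) p : ℝ) := by exact_mod_cast h1
  rw [h3]
  have h4 : (p : ℝ) - 1 ≠ 0 := by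
    have : (0 : ℝ) < p - 1 := by linarith
    exact this.ne'
  have h5 : (p : ℝ) ≠ 0 := by linarith
  field_simp
  ring

/-- the limit of the product beyond `z` is close to one -/
lemma PJ_lim {D : ℤ} (hD : ¬ IsSquare D) {z : ℕ} (hz : 2 ≤ z) {δ : ℝ} (hδ0 : 0 ≤ δ) (hδ1 : δ + 5 / z ≤ 1 / 2)
    (h : ∀ᶠ N in atTop, |SJ D z N| ≤ δ) :
    ∃ L : ℝ, 0 < L ∧ Tendsto (fun N => PJ D z N) atTop (𝓝 L) ∧ |L - 1| ≤ 2 * (δ + 5 / z) := by
  obtain ⟨L, hL0, hL⟩ := PJ_tendsto D hD z hz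
  have hz0 : (0 : ℝ) < z := by exact_mod_cast (by omega : 0 < z)
  have h5 : 0 ≤ 5 / (z : ℝ) := by positivity
  have h1z : 1 / (z : ℝ) ≤ 5 / z := div_le_div_of_nonneg_right (by norm_num) hz0.le
  refine ⟨L, hL0, hL, ?_⟩
  have hup : L ≤ 1 + 2 * (δ + 5 / z) := by
    apply le_of_tendsto hL
    filter_upwards [h, eventually_ge_atTop z] with N h1 hN
    refine (PJ_le D z N hz hN).trans ?_
    have h6 : |SJ D z N| + 1 / z ≤ δ + 5 / z := add_le_add h1 h1z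
    have h7 : 0 ≤ |SJ D z N| + 1 / (z : ℝ) := by positivity
    have h8 := Real.exp_bound_div_one_sub_of_interval h7 (by linarith)
    have h9 : Real.exp (|SJ D z N| + 1 / z) ≤ Real.exp (δ + 5 / z) := Real.exp_le_exp.2 h6
    have h10 : Real.exp (δ + 5 / z) ≤ 1 / (1 - (δ + 5 / z)) :=
      Real.exp_bound_div_one_sub_of_interval (by linarith) (by linarith)
    refine h9.trans (h10.trans ?_)
    rw [div_le_iff₀ (by linarith)]
    have h11 : 0 ≤ δ + 5 / (z : ℝ) := by linarith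
    nlinarith
  have hlo : 1 - 2 * (δ + 5 / z) ≤ L := by
    apply ge_of_tendsto hL
    filter_upwards [h, eventually_ge_atTop z] with N h1 hN
    refine le_trans ?_ (PJ_ge D z N hz hN)
    have h6 := Real.add_one_le_exp (-(|SJ D z N| + 5 / z))
    linarith
  rw [abs_le]
  constructor <;> linarith

/-- the conclusion for one polynomial, with the full Euler product -/
def GoodT (a b : ℤ) (C N : ℕ) (c : ℤ) : Prop :=
  ((∀ p : ℕ, p.Prime → ∃ m : ℕ, ¬ (p : ℤ) ∣ fv (-a) (-b) c m) →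
    ∃ m : ℕ, 1 ≤ m ∧ m ^ 2 ≤ N ∧ (fv (-a) (-b) c m).toNat.Prime) ∧
  ∃ S : ℝ, Tendsto (fun z : ℕ => Sz (-a) (-b) c z) atTop (𝓝 S) ∧
  ∀ y : ℕ, y ^ 2 ≤ N →
    |(((Icc 1 y).filter (fun t : ℕ => (fv (-a) (-b) c t).toNat.Prime)).card : ℝ) -
      S * ∑ t ∈ Icc 1 y, 1 / Real.log ((fv (-a) (-b) c t : ℤ) : ℝ)| ≤ Real.sqrt N / Real.log N ^ C

lemma goodT_of {a b c : ℤ} (ha : 0 < a) (hc : b ^ 2 + 2 ≤ c) {C N z : ℕ} (hz : 2 ≤ z) (haz : a ≤ z)
    (hL : 64 ≤ Real.log N) (hV : (Vz z)⁻¹ ≤ Real.log N) (hzL : Real.log N ^ (C + 4) ≤ z)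
    (hsq : ¬ IsSquare (b ^ 2 - 4 * a * c))
    (htail : ∀ᶠ M in atTop, |SJ (b ^ 2 - 4 * a * c) z M| ≤ 1 / Real.log N ^ (C + 4))
    (h : GoodU a b (C + 1) N z c) : GoodT a b C N c := by
  obtain ⟨L, hLd⟩ : ∃ L, L = Real.log (N : ℝ) := ⟨_, rfl⟩
  rw [← hLd] at hL hV hzL htail
  have hL0 : 0 < L := by linarith
  have hL1 : 1 ≤ L := by linarith
  have hz0 : (0 : ℝ) < z := by exact_mod_cast (by omega : 0 < z)
  have hP0 : 0 < L ^ (C + 4) := by positivity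
  have h5z : 5 / (z : ℝ) ≤ 5 / L ^ (C + 4) := div_le_div_of_nonneg_left (by norm_num) hP0 hzL
  have hLP : L ≤ L ^ (C + 4) := le_self_pow₀ hL1 (by omega)
  have h6 : 1 / L ^ (C + 4) + 5 / z ≤ 6 / L ^ (C + 4) := by
    have : 6 / L ^ (C + 4) = 1 / L ^ (C + 4) + 5 / L ^ (C + 4) := by ring
    linarith
  have h7 : 6 / L ^ (C + 4) ≤ 1 / 2 := by
    rw [div_le_div_iff₀ hP0 (by norm_num)]
    linarith
  obtain ⟨ℓ, hℓ0, hℓ, hℓ1⟩ := PJ_lim hsq hz (by positivity) (h6.trans h7) htail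
  refine ⟨h.1, Sz (-a) (-b) c z * ℓ, ?_, ?_⟩
  · refine (hℓ.const_mul (Sz (-a) (-b) c z)).congr' ?_
    filter_upwards [eventually_ge_atTop z] with M hM
    rw [Sz_split ha hz haz hM]
  · intro y hy
    have h8 := h.2 y hy
    rw [← hLd] at h8 ⊢
    obtain ⟨s0, s1⟩ := Sz_bd (-a) (-b) c z
    obtain ⟨Sg, hSg⟩ : ∃ Sg, Sg = ∑ t ∈ Icc 1 y, 1 / Real.log ((fv (-a) (-b) c t : ℤ) : ℝ) := ⟨_, rfl⟩
    rw [← hSg] at h8 ⊢
    have hyN : (y : ℝ) ≤ Real.sqrt N := by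
      apply Real.le_sqrt_of_sq_le
      exact_mod_cast hy
    have hSg0 : 0 ≤ Sg := by
      rw [hSg]
      exact sum_nonneg fun t _ => (wl_bd ha hc t).1.le
    have hSg1 : Sg ≤ 2 * Real.sqrt N := by
      rw [hSg]
      calc ∑ t ∈ Icc 1 y, 1 / Real.log ((fv (-a) (-b) c t : ℤ) : ℝ) ≤ ∑ _t ∈ Icc 1 y, (2 : ℝ) :=
            sum_le_sum fun t _ => (wl_bd ha hc t).2
        _ = y * 2 := by rw [sum_const, Nat.card_Icc, nsmul_eq_mul, Nat.add_sub_cancel]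
        _ ≤ 2 * Real.sqrt N := by linarith
    have hs0 : 0 ≤ Real.sqrt N := Real.sqrt_nonneg _
    have e : (((Icc 1 y).filter (fun t : ℕ => (fv (-a) (-b) c t).toNat.Prime)).card : ℝ) - Sz (-a) (-b) c z * ℓ * Sg =
        ((((Icc 1 y).filter (fun t : ℕ => (fv (-a) (-b) c t).toNat.Prime)).card : ℝ) - Sz (-a) (-b) c z * Sg) -
        Sz (-a) (-b) c z * (ℓ - 1) * Sg := by ring
    rw [e]
    refine (abs_sub _ _).trans ?_
    have h9 : |Sz (-a) (-b) c z * (ℓ - 1) * Sg| ≤ L * (12 / L ^ (C + 4)) * (2 * Real.sqrt N) := by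
      rw [abs_mul, abs_mul, abs_of_nonneg s0, abs_of_nonneg hSg0]
      have h10 : |ℓ - 1| ≤ 12 / L ^ (C + 4) := by
        refine hℓ1.trans ?_
        have : 12 / L ^ (C + 4) = 2 * (6 / L ^ (C + 4)) := by ring
        linarith
      gcongr
      exact s1.trans hV
    have h11 : Real.sqrt N / L ^ (C + 1) ≤ Real.sqrt N / L ^ C / 2 := by
      rw [div_div, div_le_div_iff₀ (by positivity) (by positivity), pow_succ]
      have : 0 ≤ Real.sqrt N * L ^ C := by positivity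
      nlinarith
    have h12 : L * (12 / L ^ (C + 4)) * (2 * Real.sqrt N) ≤ Real.sqrt N / L ^ C / 2 := by
      have e1 : L * (12 / L ^ (C + 4)) * (2 * Real.sqrt N) = Real.sqrt N / L ^ C * (24 / L ^ 3) := by
        rw [pow_add L C 4]
        field_simp
        try ring
      rw [e1, div_eq_mul_inv (Real.sqrt N / L ^ C) 2]
      apply mul_le_mul_of_nonneg_left _ (by positivity)
      rw [div_le_iff₀ (by positivity)]
      have : L ≤ L ^ 3 := le_self_pow₀ hL1 (by norm_num)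
      linarith
    linarith

end Pool.Agent.R460.SC
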