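import Pool.Agent.R460.SC.Fa
import Pool.Agent.R460.SC.Cm

set_option autoImplicit false

/-! The formula with the full Euler product, for almost all constant terms of both signs in a residue class. -/

namespace Pool.Agent.R460.SC
open Finset Filter Topology
open Pool.Agent.W468.ConjF (SJ PJ PJ_le PJ_tendsto)
open Pool.Agent.H373R2.T7 (Vz pz Vz_pos Vz_inv_small nuB mem_pz)
open Pool.Agent.R460.SB (Sz Sz_prod Sz_bd nu_leg fv GoodF fin_sb QS)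
open Pool.Agent.R460.SQ (thp)
open Pool.Agent.Y614.GJ.Core (ev_log)

/-- the Euler product beyond `z` -/
lemma Sz_split' {a b c : ℤ} (ha : a ≠ 0) {z N : ℕ} (hz : 2 ≤ z) (haz : a.natAbs ≤ z) (hN : z ≤ N) :
    Sz (-a) (-b) c N = Sz (-a) (-b) c z * PJ (b ^ 2 - 4 * a * c) z N := by
  rw [Sz_prod, Sz_prod]
  have e1 : pz N = pz z ∪ (Ioc z N).filter Nat.Prime := by
    ext p
    rw [mem_union, mem_pz, mem_pz, mem_filter, mem_Ioc]
    constructor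
    · rintro ⟨h1, h2⟩
      by_cases h3 : p ≤ z
      · exact Or.inl ⟨h3, h2⟩
      · exact Or.inr ⟨⟨by omega, h1⟩, h2⟩
    · rintro (⟨h1, h2⟩ | ⟨⟨h1, h2⟩, h3⟩)
      · exact ⟨by omega, h2⟩
      · exact ⟨h2, h3⟩
  have hdis : Disjoint (pz z) ((Ioc z N).filter Nat.Prime) := by
    rw [disjoint_left]
    intro p hp hp'
    rw [mem_pz] at hp
    rw [mem_filter, mem_Ioc] at hp'
    omega
  rw [e1, prod_union hdis]
  congr 1
  unfold PJ
  apply prod_congr rfl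
  intro p hp
  rw [mem_filter, mem_Ioc] at hp
  have hp3 : (3 : ℝ) ≤ p := by exact_mod_cast (by omega : 3 ≤ p)
  have hpa : ¬ (p : ℤ) ∣ -a := by
    intro h
    rw [dvd_neg] at h
    have h1 := Int.natAbs_dvd_natAbs.2 h
    rw [Int.natAbs_natCast] at h1
    have := Nat.le_of_dvd (Int.natAbs_pos.2 ha) h1
    omega
  have h1 := nu_leg (-a) (-b) c hp.2 (by omega) hpa
  have h2 : 4 * (-a) * c + (-b) ^ 2 = b ^ 2 - 4 * a * c := by ring
  rw [h2] at h1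
  have h3 : (nuB (QS (-a) (-b) c) p : ℝ) = 1 + (jacobiSym (b ^ 2 - 4 * a * c) p : ℝ) := by exact_mod_cast h1
  rw [h3]
  have h4 : (p : ℝ) - 1 ≠ 0 := by
    have : (0 : ℝ) < p - 1 := by linarith
    exact this.ne'
  have h5 : (p : ℝ) ≠ 0 := by linarith
  field_simp
  ring

/-- the conclusion for one polynomial, weighted with logarithms, with the full Euler product -/
def GoodW (a b : ℤ) (C N : ℕ) (c : ℤ) : Prop :=
  ((∀ p : ℕ, p.Prime → ∃ m : ℕ, ¬ (p : ℤ) ∣ fv (-a) (-b) c m) →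
    ∃ m : ℕ, 1 ≤ m ∧ m ^ 2 ≤ N ∧ (fv (-a) (-b) c m).natAbs.Prime) ∧
  ∃ S : ℝ, Tendsto (fun z : ℕ => Sz (-a) (-b) c z) atTop (𝓝 S) ∧
  ∀ y : ℕ, y ^ 2 ≤ N →
    |∑ m ∈ Icc 1 y, thp (fv (-a) (-b) c m).natAbs - S * y| ≤ Real.sqrt N / Real.log N ^ C

lemma goodW_of {a b c : ℤ} (ha : a ≠ 0) {C N z : ℕ} (hz : 2 ≤ z) (haz : a.natAbs ≤ z)
    (hL : 64 ≤ Real.log N) (hV : (Vz z)⁻¹ ≤ Real.log N) (hzL : Real.log N ^ (C + 4) ≤ z)
    (hsq : ¬ IsSquare (b ^ 2 - 4 * a * c))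
    (htail : ∀ᶠ M in atTop, |SJ (b ^ 2 - 4 * a * c) z M| ≤ 1 / Real.log N ^ (C + 4))
    (h : GoodF (-a) (-b) (C + 1) N z c) : GoodW a b C N c := by
  obtain ⟨L, hLd⟩ : ∃ L, L = Real.log (N : ℝ) := ⟨_, rfl⟩
  rw [← hLd] at hL hV hzL htail
  have hL0 : 0 < L := by linarith
  have hL1 : 1 ≤ L := by linarith
  have hz0 : (0 : ℝ) < z := by exact_mod_cast (by omega : 0 < z)
  have hP0 : 0 < L ^ (C + 4) := by positivity
  have h5z : 5 / (z : ℝ) ≤ 5 / L ^ (C + 4) := div_le_div_of_nonneg_left (by norm_num) hP0 hzL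
  have hLP : L ≤ L ^ (C + 4) := le_self_pow₀ hL1 (by omega)
  have h6 : 1 / L ^ (C + 4) + 5 / z ≤ 6 / L ^ (C + 4) := by
    have : 6 / L ^ (C + 4) = 1 / L ^ (C + 4) + 5 / L ^ (C + 4) := by ring
    linarith
  have h7 : 6 / L ^ (C + 4) ≤ 1 / 2 := by
    rw [div_le_div_iff₀ hP0 (by norm_num)]
    linarith
  obtain ⟨ℓ, hℓ0, hℓ, hℓ1⟩ := PJ_lim hsq hz (by positivity) (h6.trans h7) htail
  refine ⟨h.1, Sz (-a) (-b) c z * ℓ, ?_, ?_⟩
  · refine (hℓ.const_mul (Sz (-a) (-b) c z)).congr' ?_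
    filter_upwards [eventually_ge_atTop z] with M hM
    rw [Sz_split' ha hz haz hM]
  · intro y hy
    have h8 := h.2 y hy
    rw [← hLd] at h8 ⊢
    obtain ⟨s0, s1⟩ := Sz_bd (-a) (-b) c z
    have hyN : (y : ℝ) ≤ Real.sqrt N := by
      apply Real.le_sqrt_of_sq_le
      exact_mod_cast hy
    have hy0 : (0 : ℝ) ≤ y := Nat.cast_nonneg _
    have hs0 : 0 ≤ Real.sqrt N := Real.sqrt_nonneg _
    have hSg1 : (y : ℝ) ≤ 2 * Real.sqrt N := by linarith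
    obtain ⟨Th, hTh⟩ : ∃ Th, Th = ∑ m ∈ Icc 1 y, thp (fv (-a) (-b) c m).natAbs := ⟨_, rfl⟩
    rw [← hTh] at h8 ⊢
    have e : Th - Sz (-a) (-b) c z * ℓ * y = (Th - Sz (-a) (-b) c z * y) - Sz (-a) (-b) c z * (ℓ - 1) * y := by ring
    rw [e]
    refine (abs_sub _ _).trans ?_
    have h9 : |Sz (-a) (-b) c z * (ℓ - 1) * y| ≤ L * (12 / L ^ (C + 4)) * (2 * Real.sqrt N) := by
      rw [abs_mul, abs_mul, abs_of_nonneg s0, abs_of_nonneg hy0]
      have h10 : |ℓ - 1| ≤ 12 / L ^ (C + 4) := by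
        refine hℓ1.trans ?_
        have : 12 / L ^ (C + 4) = 2 * (6 / L ^ (C + 4)) := by ring
        linarith
      gcongr
      exact s1.trans hV
    have h11 : Real.sqrt N / L ^ (C + 1) ≤ Real.sqrt N / L ^ C / 2 := by
      rw [div_div, div_le_div_iff₀ (by positivity) (by positivity), pow_succ]
      have : 0 ≤ Real.sqrt N * L ^ C := by positivity
      nlinarith
    have h12 : L * (12 / L ^ (C + 4)) * (2 * Real.sqrt N) ≤ Real.sqrt N / L ^ C / 2 := by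
      have e1 : L * (12 / L ^ (C + 4)) * (2 * Real.sqrt N) = Real.sqrt N / L ^ C * (24 / L ^ 3) := by
        rw [pow_add L C 4]
        field_simp
        try ring
      rw [e1, div_eq_mul_inv (Real.sqrt N / L ^ C) 2]
      apply mul_le_mul_of_nonneg_left _ (by positivity)
      rw [div_le_iff₀ (by positivity)]
      have : L ≤ L ^ 3 := le_self_pow₀ hL1 (by norm_num)
      linarith
    linarith

open Classical in
theorem fin_w {a b : ℤ} (ha : a ≠ 0) (ρ : ℝ) (hρ : 0 < ρ) (A C T : ℕ) :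
    ∃ N₀ : ℕ, ∀ N : ℕ, N₀ ≤ N →
      ∀ q : ℕ, 1 ≤ q → (q : ℝ) ≤ (N : ℝ) ^ (1 / 2 - ρ) → (q.divisors.card : ℝ) ≤ Real.log N ^ T →
      ∀ c₀ : ℤ, (Int.gcd (b ^ 2 - 4 * a * c₀) q : ℝ) ≤ Real.log N ^ T →
        (((Icc (-(N : ℤ)) N).filter (fun c : ℤ => c ≡ c₀ [ZMOD q] ∧ ¬ GoodW a b C N c)).card : ℝ) ≤
          (N : ℝ) / (q * Real.log N ^ A) := by
  obtain ⟨B, hB⟩ := fin_sb (α := -a) (γ := -b) (neg_ne_zero.2 ha) ρ hρ (A + 1) (C + 1) T
  obtain ⟨U, hU⟩ : ∃ U, U = A + C + 4 := ⟨_, rfl⟩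
  obtain ⟨B', hB'⟩ : ∃ B', B' = B + 3 * (U + 1) + 4 := ⟨_, rfl⟩
  obtain ⟨N₁, h1⟩ := hB (B' + 1)
  obtain ⟨N₂, h2⟩ := tail_both a ha b ρ hρ U (B' + 1)
  obtain ⟨N₃, h3⟩ := Vz_inv_small (B' + 1)
  obtain ⟨N₄, h4⟩ := Filter.eventually_atTop.1 (ev_log (A + 1) (s := min ρ (1 / 2)) (by positivity)
    (100 + (a.natAbs : ℝ)))
  refine ⟨N₁ + N₂ + N₃ + N₄ + 3, fun N hN q hq1 hqN hτ c₀ hb => ?_⟩
  obtain ⟨hLb, hLp⟩ := h4 N (by omega)
  have hN1 : 1 ≤ N := by omega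
  have hN0 : (0 : ℝ) < N := by exact_mod_cast hN1
  have hN1r : (1 : ℝ) ≤ N := by exact_mod_cast hN1
  have c1 := h1 N (by omega)
  have c2 := h2 N (by omega)
  have c3 := h3 N (by omega)
  obtain ⟨L, hL⟩ : ∃ L, L = Real.log (N : ℝ) := ⟨_, rfl⟩
  have ha0 : (0 : ℝ) ≤ a.natAbs := Nat.cast_nonneg _
  rw [← hL] at hLb hLp c1 c2 c3 hτ hb ⊢
  have hL100 : 100 ≤ L := by linarith
  have hL0 : 0 < L := by linarith
  have hL1 : 1 ≤ L := by linarith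
  have hq0 : (0 : ℝ) < q := by exact_mod_cast hq1
  obtain ⟨z, hz⟩ : ∃ z, z = ⌈L ^ B'⌉₊ := ⟨_, rfl⟩
  have hzlo : L ^ B' ≤ z := by rw [hz]; exact Nat.le_ceil _
  have hL1B : 1 ≤ L ^ B' := one_le_pow₀ hL1
  have hzhi : (z : ℝ) ≤ L ^ (B' + 1) := by
    have := Nat.ceil_lt_add_one (show 0 ≤ L ^ B' by positivity)
    rw [← hz] at this
    calc (z : ℝ) ≤ L ^ B' + 1 := this.le
      _ ≤ L ^ B' + L ^ B' := by linarith
      _ = 2 * L ^ B' := by ring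
      _ ≤ L * L ^ B' := mul_le_mul_of_nonneg_right (by linarith) (by positivity)
      _ = L ^ (B' + 1) := by ring
  have hzL : L ≤ z := (le_self_pow₀ hL1 (by omega)).trans hzlo
  have hz2 : 2 ≤ z := by
    have : (2 : ℝ) ≤ z := by linarith
    exact_mod_cast this
  have haz : a.natAbs ≤ z := by
    have : ((a.natAbs : ℕ) : ℝ) ≤ z := by linarith
    exact_mod_cast this
  have d1 := c1 z ((pow_le_pow_right₀ hL1 (by omega)).trans hzlo) hzhi q hq1 hqN hτ c₀ (by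
    have e : 4 * -a * c₀ + (-b) ^ 2 = b ^ 2 - 4 * a * c₀ := by ring
    rw [e]
    exact hb)
  obtain ⟨Ex, hEx1, hEx2⟩ := c2 z ((pow_le_pow_right₀ hL1 (by omega)).trans hzlo) hzhi q hq1 hqN c₀
  have d3 := c3 z (by omega) hzhi
  have hsub : (Icc (-(N : ℤ)) N).filter (fun c : ℤ => c ≡ c₀ [ZMOD q] ∧ ¬ GoodW a b C N c) ⊆
      ((Icc (-(N : ℤ)) N).filter (fun c : ℤ => c ≡ c₀ [ZMOD q] ∧ ¬ GoodF (-a) (-b) (C + 1) N z c)) ∪ Ex := by
    intro c hc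
    rw [mem_filter, mem_Icc] at hc
    obtain ⟨⟨g1, g2⟩, g3, g4⟩ := hc
    rw [mem_union, mem_filter, mem_Icc]
    by_cases hE : c ∈ Ex
    · exact Or.inr hE
    left
    refine ⟨⟨g1, g2⟩, g3, fun hg => g4 ?_⟩
    obtain ⟨e1, e2⟩ := hEx2 c g1 g2 g3 hE
    refine goodW_of ha hz2 haz (by rw [← hL]; linarith) (by rw [← hL]; exact d3) (by
      rw [← hL]
      exact (pow_le_pow_right₀ hL1 (by omega)).trans hzlo) e1 ?_ hg
    filter_upwards [e2] with M hM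
    refine hM.trans ?_
    rw [← hL]
    apply one_div_le_one_div_of_le (by positivity)
    exact pow_le_pow_right₀ hL1 (by omega)
  have hcard : (((Icc (-(N : ℤ)) N).filter (fun c : ℤ => c ≡ c₀ [ZMOD q] ∧ ¬ GoodW a b C N c)).card : ℝ) ≤
      (((Icc (-(N : ℤ)) N).filter (fun c : ℤ => c ≡ c₀ [ZMOD q] ∧ ¬ GoodF (-a) (-b) (C + 1) N z c)).card : ℝ) +
        (Ex.card : ℝ) := by
    have e1 := card_le_card hsub
    have e2 := card_union_le ((Icc (-(N : ℤ)) N).filter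
      (fun c : ℤ => c ≡ c₀ [ZMOD q] ∧ ¬ GoodF (-a) (-b) (C + 1) N z c)) Ex
    exact_mod_cast e1.trans e2
  refine hcard.trans ?_
  -- comparison of the terms
  obtain ⟨Y, hY⟩ : ∃ Y : ℝ, Y = (N : ℝ) / (q * L ^ (A + 1)) := ⟨_, rfl⟩
  have hY0 : 0 < Y := by rw [hY]; positivity
  have t1 : (N : ℝ) / (q * L ^ U) ≤ Y := by
    rw [hY]
    apply div_le_div_of_nonneg_left hN0.le (by positivity)
    exact mul_le_mul_of_nonneg_left (pow_le_pow_right₀ hL1 (by omega)) hq0.le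
  have hhalf : 1 ≤ Y := by
    rw [hY, le_div_iff₀ (by positivity), one_mul]
    have hpl : L ^ (A + 1) ≤ (N : ℝ) ^ ρ :=
      hLp.trans (Real.rpow_le_rpow_of_exponent_le hN1r (min_le_left _ _))
    calc (q : ℝ) * L ^ (A + 1) ≤ (N : ℝ) ^ (1 / 2 - ρ) * (N : ℝ) ^ ρ := by gcongr
      _ = (N : ℝ) ^ (1 / 2 : ℝ) := by
          rw [← Real.rpow_add hN0]
          congr 1
          ring
      _ ≤ (N : ℝ) ^ (1 : ℝ) := Real.rpow_le_rpow_of_exponent_le hN1r (by norm_num)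
      _ = N := Real.rpow_one _
  have hfin : (N : ℝ) / (q * L ^ A) = Y * L := by
    rw [hY, pow_succ]
    field_simp
  rw [hfin]
  rw [← hY] at d1
  have : 4 * Y ≤ Y * L := by nlinarith
  linarith

end Pool.Agent.R460.SC
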