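import Mathlib

set_option autoImplicit false

/-! The local factors of a quadratic polynomial in terms of the Legendre symbol of the discriminant. -/

namespace Pool.Agent.R460.SC
open Finset

/-- number of the roots modulo `p` -/
def om (a b c : ℤ) (p : ℕ) : ℕ := ((range p).filter (fun m : ℕ => (p : ℤ) ∣ a * (m : ℤ) ^ 2 + b * (m : ℤ) + c)).card

lemma om_zero {a b c : ℤ} {p : ℕ} (ha : (p : ℤ) ∣ a) (hb : (p : ℤ) ∣ b) (hc : ¬ (p : ℤ) ∣ c) : om a b c p = 0 := by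
  unfold om
  rw [card_eq_zero, filter_eq_empty_iff]
  intro m _ h
  exact hc ((dvd_add_right (dvd_add (Dvd.dvd.mul_right ha _) (Dvd.dvd.mul_right hb _))).1 h)

lemma om_one {a b c : ℤ} {p : ℕ} (hp : p.Prime) (ha : (p : ℤ) ∣ a) (hb : ¬ (p : ℤ) ∣ b) : om a b c p = 1 := by
  have : Fact p.Prime := ⟨hp⟩
  have hb' : (b : ZMod p) ≠ 0 := fun h => hb ((ZMod.intCast_zmod_eq_zero_iff_dvd b p).1 h)
  have ha' : (a : ZMod p) = 0 := (ZMod.intCast_zmod_eq_zero_iff_dvd a p).2 ha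
  unfold om
  rw [card_eq_one]
  refine ⟨(-(c : ZMod p) / (b : ZMod p)).val, ?_⟩
  ext m
  rw [mem_filter, mem_range, mem_singleton]
  rw [← ZMod.intCast_zmod_eq_zero_iff_dvd]
  push_cast
  rw [ha', zero_mul, zero_add]
  constructor
  · rintro ⟨h1, h2⟩
    have h3 : (m : ZMod p) = -(c : ZMod p) / (b : ZMod p) := by
      rw [eq_div_iff hb']
      linear_combination h2
    rw [← h3, ZMod.val_natCast, Nat.mod_eq_of_lt h1]
  · intro h
    refine ⟨?_, ?_⟩
    · rw [h]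
      exact ZMod.val_lt _
    · rw [h, ZMod.natCast_val, ZMod.cast_id', id]
      field_simp
      ring

lemma om_two_odd {a b c : ℤ} (h : Odd (a + b)) : om a b c 2 = 1 := by
  unfold om
  have hr : range 2 = {0, 1} := rfl
  rw [hr]
  by_cases hc : Even c
  · have h1 : (fun m : ℕ => ((2 : ℕ) : ℤ) ∣ a * (m : ℤ) ^ 2 + b * (m : ℤ) + c) 0 := by
      have := hc.two_dvd
      push_cast
      simpa using this
    have h2 : ¬ (fun m : ℕ => ((2 : ℕ) : ℤ) ∣ a * (m : ℤ) ^ 2 + b * (m : ℤ) + c) 1 := by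
      intro h3
      have h4 : Odd (a + b + c) := h.add_even hc
      have h5 : Even (a + b + c) := by
        rw [even_iff_two_dvd]
        simpa using h3
      exact (Int.not_even_iff_odd.2 h4) h5
    rw [filter_insert, if_pos h1, filter_singleton, if_neg h2]
    rfl
  · rw [Int.not_even_iff_odd] at hc
    have h1 : ¬ (fun m : ℕ => ((2 : ℕ) : ℤ) ∣ a * (m : ℤ) ^ 2 + b * (m : ℤ) + c) 0 := by
      intro h3
      have h5 : Even c := by
        rw [even_iff_two_dvd]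
        simpa using h3
      exact (Int.not_even_iff_odd.2 hc) h5
    have h2 : (fun m : ℕ => ((2 : ℕ) : ℤ) ∣ a * (m : ℤ) ^ 2 + b * (m : ℤ) + c) 1 := by
      have h4 : Even (a + b + c) := h.add_odd hc
      have := h4.two_dvd
      simpa using this
    rw [filter_insert, if_neg h1, filter_singleton, if_pos h2]
    rfl

lemma om_two_even {a b c : ℤ} (h : ¬ Odd (a + b)) (hc : ¬ (Even (a + b) ∧ Even c)) : om a b c 2 = 0 := by
  rw [Int.not_odd_iff_even] at h
  have hco : Odd c := by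
    rw [← Int.not_even_iff_odd]
    exact fun h' => hc ⟨h, h'⟩
  unfold om
  have hr : range 2 = {0, 1} := rfl
  rw [hr, card_eq_zero, filter_eq_empty_iff]
  intro m hm h3
  rw [mem_insert, mem_singleton] at hm
  rcases hm with rfl | rfl
  · have h5 : Even c := by
      rw [even_iff_two_dvd]
      simpa using h3
    exact (Int.not_even_iff_odd.2 hco) h5
  · have h4 : Odd (a + b + c) := h.add_odd hco
    have h5 : Even (a + b + c) := by
      rw [even_iff_two_dvd]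
      simpa using h3
    exact (Int.not_even_iff_odd.2 h4) h5

/-- the partial products of the constant of Hardy and Littlewood -/
noncomputable def cf (a b c : ℤ) (z : ℕ) : ℝ :=
  (if Odd (a + b) then 1 / 2 else 1) *
    (∏ p ∈ (Icc 3 z).filter (fun p : ℕ => p.Prime ∧ (p : ℤ) ∣ a ∧ (p : ℤ) ∣ b), (p : ℝ) / (p - 1)) *
    ∏ p ∈ (Icc 3 z).filter (fun p : ℕ => p.Prime ∧ ¬ (p : ℤ) ∣ a),
      (1 - (jacobiSym (b ^ 2 - 4 * a * c) p : ℝ) / (p - 1))

lemma cf_eq {a b c : ℤ} (hadm : ¬ (Even (a + b) ∧ Even c)) (hg : ∀ p : ℕ, p.Prime → (p : ℤ) ∣ a → (p : ℤ) ∣ b → ¬ (p : ℤ) ∣ c)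
    (hleg : ∀ p : ℕ, p.Prime → 2 < p → ¬ (p : ℤ) ∣ a → (om a b c p : ℝ) = 1 + (jacobiSym (b ^ 2 - 4 * a * c) p : ℝ))
    {z : ℕ} (hz : 2 ≤ z) :
    ∏ p ∈ (Icc 1 z).filter Nat.Prime, (1 - (om a b c p : ℝ) / p) / (1 - 1 / (p : ℝ)) = 2 * cf a b c z := by
  classical
  have e1 : (Icc 1 z).filter Nat.Prime = insert 2 ((Icc 3 z).filter Nat.Prime) := by
    ext p
    rw [mem_insert, mem_filter, mem_filter, mem_Icc, mem_Icc]
    constructor
    · rintro ⟨⟨_, h2⟩, h3⟩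
      have := h3.two_le
      by_cases h4 : p = 2
      · exact Or.inl h4
      · exact Or.inr ⟨⟨by omega, h2⟩, h3⟩
    · rintro (rfl | ⟨⟨h1, h2⟩, h3⟩)
      · exact ⟨⟨by omega, hz⟩, Nat.prime_two⟩
      · exact ⟨⟨by omega, h2⟩, h3⟩
  have hnot : 2 ∉ (Icc 3 z).filter Nat.Prime := by
    rw [mem_filter, mem_Icc]
    omega
  rw [e1, prod_insert hnot]
  have e2 : (1 - (om a b c 2 : ℝ) / (2 : ℕ)) / (1 - 1 / ((2 : ℕ) : ℝ)) = 2 * (if Odd (a + b) then 1 / 2 else 1) := by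
    by_cases h : Odd (a + b)
    · rw [om_two_odd h, if_pos h]
      norm_num
    · rw [om_two_even h hadm, if_neg h]
      norm_num
  rw [e2]
  unfold cf
  rw [mul_assoc, mul_assoc]
  congr 2
  have f1 : (Icc 3 z).filter (fun p : ℕ => p.Prime ∧ (p : ℤ) ∣ a ∧ (p : ℤ) ∣ b) =
      ((Icc 3 z).filter Nat.Prime).filter (fun p : ℕ => (p : ℤ) ∣ a ∧ (p : ℤ) ∣ b) := by
    rw [filter_filter]
  have f2 : (Icc 3 z).filter (fun p : ℕ => p.Prime ∧ ¬ (p : ℤ) ∣ a) =
      ((Icc 3 z).filter Nat.Prime).filter (fun p : ℕ => ¬ (p : ℤ) ∣ a) := by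
    rw [filter_filter]
  obtain ⟨P3, hP3⟩ : ∃ P3, P3 = (Icc 3 z).filter Nat.Prime := ⟨_, rfl⟩
  rw [f1, f2, ← hP3, prod_filter, prod_filter, ← prod_mul_distrib]
  apply prod_congr rfl
  intro p hp
  rw [hP3, mem_filter, mem_Icc] at hp
  obtain ⟨⟨h3, _⟩, hpp⟩ := hp
  have h3r : (3 : ℝ) ≤ p := by exact_mod_cast h3
  have hp0 : (p : ℝ) ≠ 0 := by linarith
  have hp1 : (p : ℝ) - 1 ≠ 0 := by
    have : (0 : ℝ) < p - 1 := by linarith
    exact this.ne'
  by_cases hpa : (p : ℤ) ∣ a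
  · by_cases hpb : (p : ℤ) ∣ b
    · rw [om_zero hpa hpb (hg p hpp hpa hpb), if_pos ⟨hpa, hpb⟩, if_neg (not_not.2 hpa)]
      push_cast
      field_simp
      try ring
    · rw [om_one hpp hpa hpb, if_neg (fun h => hpb h.2), if_neg (not_not.2 hpa)]
      push_cast
      field_simp
      try ring
  · rw [hleg p hpp (by omega) hpa, if_neg (fun h => hpa h.1), if_pos hpa]
    field_simp
    ring

end Pool.Agent.R460.SC
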