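import Pool.Agent.R460.SC.Tl

set_option autoImplicit false

/-! The number of the members `d s²` of a linear sequence. -/

namespace Pool.Agent.R460.SC
open Finset Filter Topology
open Pool.Agent.Y868.TB (Sol)

lemma sol_lin (α β : ℤ) (hβ : β ≠ 0) (H R : ℕ) (hR : ∀ k ∈ Icc 1 H, (α + β * (k : ℤ)).natAbs ≤ R) (d : ℤ) :
    #(Sol (fun k : ℕ => α + β * (k : ℤ)) H d) ≤ Nat.sqrt R + 1 := by
  classical
  have hinj : ∀ k k' : ℕ, α + β * (k : ℤ) = α + β * (k' : ℤ) → k = k' := by
    intro k k' h
    have h1 : β * (k : ℤ) = β * (k' : ℤ) := by linarith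
    have h2 := mul_left_cancel₀ hβ h1
    exact_mod_cast h2
  by_cases hd : d = 0
  · have h1 : #(Sol (fun k : ℕ => α + β * (k : ℤ)) H d) ≤ 1 := by
      rw [card_le_one]
      intro k hk k' hk'
      rw [Sol, mem_filter] at hk hk'
      obtain ⟨-, s, hs⟩ := hk
      obtain ⟨-, s', hs'⟩ := hk'
      rw [hd, zero_mul] at hs hs'
      exact hinj k k' (by rw [hs, hs'])
    omega
  · have h1 : #(Sol (fun k : ℕ => α + β * (k : ℤ)) H d) ≤ #(range (Nat.sqrt R + 1)) := by
      apply card_le_card_of_injOn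
        (fun k : ℕ => if h : ∃ s : ℕ, α + β * (k : ℤ) = d * (s : ℤ) ^ 2 then h.choose else 0)
      · intro k hk
        rw [mem_coe, Sol, mem_filter] at hk
        obtain ⟨hk1, hk2⟩ := hk
        simp only
        rw [dif_pos hk2, mem_coe, mem_range]
        have h3 := hk2.choose_spec
        obtain ⟨s, hs⟩ : ∃ s, s = hk2.choose := ⟨_, rfl⟩
        rw [← hs] at h3 ⊢
        have h4 := hR k hk1
        rw [h3, Int.natAbs_mul, Int.natAbs_pow, Int.natAbs_natCast] at h4
        have h5 : 1 ≤ d.natAbs := Int.natAbs_pos.2 hd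
        have h6 : s ^ 2 ≤ R := le_trans (Nat.le_mul_of_pos_left _ h5) h4
        have h7 : s ≤ Nat.sqrt R := Nat.le_sqrt'.2 h6
        omega
      · intro k hk k' hk' he
        rw [mem_coe, Sol, mem_filter] at hk hk'
        simp only at he
        rw [dif_pos hk.2, dif_pos hk'.2] at he
        have h3 := hk.2.choose_spec
        have h4 := hk'.2.choose_spec
        rw [he] at h3
        exact hinj k k' (h3.trans h4.symm)
    rwa [card_range] at h1

end Pool.Agent.R460.SC
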